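import Pool.Agent.K1H35.SH.Stm

/-!
Piece TWO of the project SH (MP_0fd30f_pr): one step of the chain for the number of common
neighbours of `u, v` which are not neighbours of `w`.
-/

namespace Pool.Agent.K1H67.SH

open Finset
open Pool.Agent.K1H35.SH

variable {n : ℕ}

theorem mem_nb (G : SimpleGraph (Fin n)) (v x : Fin n) : x ∈ nb G v ↔ G.Adj v x := by
  simp [nb]

theorem mem_reg (G : SimpleGraph (Fin n)) (d : ℕ) :
    G ∈ reg n d ↔ ∀ v, (nb G v).card = d := by
  simp [reg]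

theorem mem_TS (G : SimpleGraph (Fin n)) (u v w x : Fin n) :
    x ∈ TS G u v w ↔ (G.Adj u x ∧ G.Adj v x) ∧ ¬ G.Adj w x := by
  classical
  simp only [TS, Finset.mem_sdiff, Finset.mem_inter, mem_nb]

/-- forward tuples -/
noncomputable def FF (G : SimpleGraph (Fin n)) (u v w : Fin n) : Finset (Tup n) := by
  classical exact univ.filter (fun t => t.1 = v ∧
    (G.Adj u t.2.2.1 ∧ ¬ G.Adj v t.2.2.1 ∧ ¬ G.Adj w t.2.2.1 ∧ t.2.2.1 ≠ v ∧ t.2.2.1 ≠ w) ∧
    (G.Adj v t.2.1 ∧ t.2.1 ∉ TS G u v w ∧ t.2.1 ≠ u ∧ t.2.1 ≠ w) ∧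
    (G.Adj t.2.2.1 t.2.2.2 ∧ ¬ G.Adj t.2.1 t.2.2.2 ∧ t.2.2.2 ≠ t.2.1 ∧ t.2.2.2 ≠ u ∧
      t.2.2.2 ≠ w))

/-- backward tuples -/
noncomputable def BB (G : SimpleGraph (Fin n)) (u v w : Fin n) : Finset (Tup n) := by
  classical exact univ.filter (fun t => t.1 = v ∧ t.2.2.1 ∈ TS G u v w ∧ G.Adj t.2.1 t.2.2.2)

theorem card_triple {α β γ : Type*} (S : Finset α) (T : Finset β) (U : α → β → Finset γ)
    (c : ℕ) (h : ∀ a ∈ S, ∀ b ∈ T, c ≤ (U a b).card) :
    S.card * T.card * c ≤ ((S ×ˢ T).sigma (fun p => U p.1 p.2)).card := by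
  classical
  rw [Finset.card_sigma, ← Finset.card_product]
  calc (S ×ˢ T).card * c = ∑ _p ∈ S ×ˢ T, c := by simp
    _ ≤ ∑ p ∈ S ×ˢ T, (U p.1 p.2).card := by
        apply Finset.sum_le_sum
        intro p hp
        rw [Finset.mem_product] at hp
        exact h p.1 hp.1 p.2 hp.2

theorem card_triple' {α β γ : Type*} (S : Finset α) (T : Finset β) (U : α → β → Finset γ)
    (c : ℕ) (h : ∀ a ∈ S, ∀ b ∈ T, (U a b).card ≤ c) :
    ((S ×ˢ T).sigma (fun p => U p.1 p.2)).card ≤ S.card * T.card * c := by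
  classical
  rw [Finset.card_sigma, ← Finset.card_product]
  calc ∑ p ∈ S ×ˢ T, (U p.1 p.2).card ≤ ∑ _p ∈ S ×ˢ T, c := by
        apply Finset.sum_le_sum
        intro p hp
        rw [Finset.mem_product] at hp
        exact h p.1 hp.1 p.2 hp.2
    _ = (S ×ˢ T).card * c := by simp

/-- differences of neighbourhoods of a good graph -/
theorem diff_card (d : ℕ) (G : SimpleGraph (Fin n)) (hG : G ∈ reg n d) (hg : Good d G)
    (a b : Fin n) (hab : a ≠ b) : by classical exact d < 16 * (nb G a \ nb G b).card := by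
  classical
  have h1 := Finset.card_sdiff_add_card_inter (nb G a) (nb G b)
  have h2 := hg a b hab
  have h3 : codeg G a b = (nb G a ∩ nb G b).card := by
    simp only [codeg]
  rw [(mem_reg G d).1 hG a] at h1
  rw [h3] at h2
  change d < 16 * (nb G a \ nb G b).card
  omega

/-- lower bound for the number of forward tuples -/
theorem FF_card (d j : ℕ) (G : SimpleGraph (Fin n)) (hG : G ∈ reg n d) (hg : Good d G)
    (u v w : Fin n) (huw : u ≠ w)
    (hj : (TS G u v w).card = j) :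
    (d / 16 - j - 2) * (d - j - 2) * (d / 16 - 3) ≤ (FF G u v w).card := by
  classical
  -- the three sets
  set KS : Finset (Fin n) := ((nb G u \ nb G w) \ nb G v) \ {v, w} with hKS
  set LS : Finset (Fin n) := (nb G v \ TS G u v w) \ {u, w} with hLS
  set XS : Fin n → Fin n → Finset (Fin n) := fun k l => (nb G k \ nb G l) \ {l, u, w} with hXS
  have hK : d / 16 - j - 2 ≤ KS.card := by
    have h1 := diff_card d G hG hg u w huw
    have h2 := Finset.card_sdiff_add_card_inter (nb G u \ nb G w) (nb G v)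
    have h3 : (nb G u \ nb G w) ∩ nb G v = TS G u v w := by
      ext z
      simp only [Finset.mem_inter, Finset.mem_sdiff, mem_nb, mem_TS]
      tauto
    rw [h3, hj] at h2
    have h4 := Finset.le_card_sdiff {v, w} ((nb G u \ nb G w) \ nb G v)
    have h5 : ({v, w} : Finset (Fin n)).card ≤ 2 := Finset.card_le_two
    rw [← hKS] at h4
    omega
  have hL : d - j - 2 ≤ LS.card := by
    have h2 := Finset.le_card_sdiff (TS G u v w) (nb G v)
    have h4 := Finset.le_card_sdiff {u, w} (nb G v \ TS G u v w)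
    have h5 : ({u, w} : Finset (Fin n)).card ≤ 2 := Finset.card_le_two
    have h6 := (mem_reg G d).1 hG v
    rw [hj, h6] at h2
    rw [← hLS] at h4
    omega
  have hX : ∀ k ∈ KS, ∀ l ∈ LS, d / 16 - 3 ≤ (XS k l).card := by
    intro k hk l hl
    have hkl : k ≠ l := by
      rintro rfl
      simp only [hKS, hLS, Finset.mem_sdiff, mem_nb] at hk hl
      exact hk.1.2 hl.1.1
    have h1 := diff_card d G hG hg k l hkl
    have h4 := Finset.le_card_sdiff {l, u, w} (nb G k \ nb G l)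
    have h5 : ({l, u, w} : Finset (Fin n)).card ≤ 3 := Finset.card_le_three
    simp only [hXS]
    omega
  have h1 := card_triple KS LS XS (d / 16 - 3) hX
  have h2 : ((KS ×ˢ LS).sigma (fun p => XS p.1 p.2)).card ≤ (FF G u v w).card := by
    apply Finset.card_le_card_of_injOn
      (fun s : (_ : Fin n × Fin n) × Fin n => ((v, s.1.2, s.1.1, s.2) : Tup n))
    · rintro ⟨⟨k, l⟩, x⟩ hs
      simp only [hKS, hLS, hXS, Finset.coe_sigma, Set.mem_sigma_iff, Finset.mem_coe,
        Finset.mem_product, Finset.mem_sdiff, Finset.mem_insert, Finset.mem_singleton,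
        mem_nb, not_or] at hs
      simp only [FF, Finset.coe_filter, Finset.mem_univ, true_and, Set.mem_setOf_eq, ne_eq]
      tauto
    · rintro ⟨⟨k, l⟩, x⟩ _ ⟨⟨k', l'⟩, x'⟩ _ h
      simp only [Prod.mk.injEq, true_and] at h
      obtain ⟨rfl, rfl, rfl⟩ := h
      rfl
  calc (d / 16 - j - 2) * (d - j - 2) * (d / 16 - 3)
      ≤ KS.card * LS.card * (d / 16 - 3) := by gcongr
    _ ≤ _ := h1.trans h2

/-- upper bound for the number of backward tuples -/
theorem BB_card (d j : ℕ) (G : SimpleGraph (Fin n)) (hG : G ∈ reg n d)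
    (u v w : Fin n) (hj : (TS G u v w).card = j) :
    (BB G u v w).card ≤ j * n * d := by
  classical
  have h1 := card_triple' (TS G u v w) (univ : Finset (Fin n)) (fun _ l => nb G l) d
    (fun _ _ l _ => le_of_eq ((mem_reg G d).1 hG l))
  rw [hj, Finset.card_univ, Fintype.card_fin] at h1
  refine le_trans ?_ h1
  apply Finset.card_le_card_of_injOn
    (fun t : Tup n => (⟨(t.2.2.1, t.2.1), t.2.2.2⟩ : (_ : Fin n × Fin n) × Fin n))
  · rintro ⟨a, l, k, x⟩ ht
    simp only [BB, Finset.coe_filter, Finset.mem_univ, true_and, Set.mem_setOf_eq] at ht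
    simp only [Finset.coe_sigma, Set.mem_sigma_iff, Finset.mem_coe, Finset.mem_product,
      Finset.mem_univ, and_true, mem_nb]
    exact ⟨ht.2.1, ht.2.2⟩
  · rintro ⟨a, l, k, x⟩ ht ⟨a', l', k', x'⟩ ht' h
    simp only [BB, Finset.coe_filter, Finset.mem_univ, true_and, Set.mem_setOf_eq] at ht ht'
    simp only [Sigma.mk.injEq, Prod.mk.injEq, heq_eq_eq] at h
    obtain ⟨⟨rfl, rfl⟩, rfl⟩ := h
    have : a = a' := ht.1.trans ht'.1.symm
    subst this
    rfl

theorem TS_sw (hSW : S_SW) (G : SimpleGraph (Fin n)) (u v w k l x : Fin n)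
    (huv : u ≠ v) (hvw : v ≠ w)
    (hk : G.Adj u k ∧ ¬ G.Adj v k ∧ ¬ G.Adj w k ∧ k ≠ v ∧ k ≠ w)
    (hl : G.Adj v l ∧ l ∉ TS G u v w ∧ l ≠ u ∧ l ≠ w)
    (hx : G.Adj k x ∧ ¬ G.Adj l x ∧ x ≠ l ∧ x ≠ u ∧ x ≠ w) :
    (∀ d, G ∈ reg n d → sw (v, l, k, x) G ∈ reg n d) ∧
      (by classical exact TS (sw (v, l, k, x) G) u v w = insert k (TS G u v w)) ∧
      k ∉ TS G u v w ∧ (sw (v, l, k, x) G).Adj l x := by
  classical
  obtain ⟨hk1, hk2, hk3, hk4, hk5⟩ := hk
  obtain ⟨hl1, hl2, hl3, hl4⟩ := hl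
  obtain ⟨hx1, hx2, hx3, hx4, hx5⟩ := hx
  have hval : Val G (v, l, k, x) := ⟨hl1, hx1, hk2, hk4.symm, hx2, hx3.symm⟩
  obtain ⟨_, hv, hl', _, _, hz, hreg⟩ := hSW n G v l k x hval
  have hu : nb (sw (v, l, k, x) G) u = nb G u :=
    hz u huv hl3.symm (fun h => G.loopless.irrefl u (by rw [← h] at hk1; exact hk1)) hx4.symm
  have hw : nb (sw (v, l, k, x) G) w = nb G w :=
    hz w hvw.symm hl4.symm hk5.symm hx5.symm
  refine ⟨hreg, ?_, ?_, ?_⟩
  · change TS (sw (v, l, k, x) G) u v w = insert k (TS G u v w)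
    ext z
    have e1 : z ∈ TS (sw (v, l, k, x) G) u v w ↔
        (z ∈ nb (sw (v, l, k, x) G) u ∧ z ∈ nb (sw (v, l, k, x) G) v) ∧
          z ∉ nb (sw (v, l, k, x) G) w := by
      simp only [mem_TS, mem_nb]
    rw [e1, hu, hv, hw]
    simp only [Finset.mem_insert, Finset.mem_erase, mem_nb, mem_TS]
    rw [mem_TS] at hl2
    constructor
    · rintro ⟨⟨h1, h2 | h2⟩, h3⟩
      · exact Or.inl h2
      · exact Or.inr ⟨⟨h1, h2.2⟩, h3⟩
    · rintro (h | h)
      · subst h
        exact ⟨⟨hk1, Or.inl rfl⟩, hk3⟩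
      · refine ⟨⟨h.1.1, Or.inr ⟨?_, h.1.2⟩⟩, h.2⟩
        rintro rfl
        exact hl2 h
  · rw [mem_TS]
    exact fun h => hk2 h.1.2
  · rw [← mem_nb, hl']
    exact Finset.mem_insert_self _ _

theorem t_TWO (hSW : S_SW) (hDC : S_DC) : S_TWO := by
  classical
  intro n d j u v w hnd hd huv huw hvw hj
  have hd0 : 0 < d := by omega
  have h8 : 8192 * (j + 1) ≤ d := by
    have h1 : 4096 * ((j + 1) * (2 * d)) ≤ d ^ 2 := by
      refine le_trans ?_ hj
      gcongr
    have h2 : (8192 * (j + 1)) * d ≤ d * d := by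
      calc (8192 * (j + 1)) * d = 4096 * ((j + 1) * (2 * d)) := by ring
        _ ≤ d ^ 2 := h1
        _ = d * d := by ring
    exact Nat.le_of_mul_le_mul_right h2 hd0
  have key := hDC n d (fun G => Good d G ∧ (TS G u v w).card = j)
    (fun G => (TS G u v w).card = j + 1) (fun G => FF G u v w) (fun G => BB G u v w)
    ((d / 16 - j - 2) * (d - j - 2) * (d / 16 - 3)) ((j + 1) * n * d)
    (by
      rintro G hG ⟨_, hc⟩ ⟨a, l, k, x⟩ ht
      simp only [FF, Finset.mem_filter, Finset.mem_univ, true_and] at ht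
      obtain ⟨rfl, hk, hl, hx⟩ := ht
      obtain ⟨h1, h2, h3, h4⟩ := TS_sw hSW G u a w k l x huv hvw hk hl hx
      change TS (sw (a, l, k, x) G) u a w = insert k (TS G u a w) at h2
      refine ⟨h1 d hG, ?_, ?_⟩
      · change (TS (sw (a, l, k, x) G) u a w).card = j + 1
        rw [h2, Finset.card_insert_of_notMem h3, hc]
      · simp only [BB, Finset.mem_filter, Finset.mem_univ, true_and]
        refine ⟨?_, h4⟩
        rw [h2]
        exact Finset.mem_insert_self _ _)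
    (fun G hG hP => FF_card d j G hG hP.1 u v w huw hP.2)
    (fun G hG hQ => BB_card d (j + 1) G hG u v w hQ)
  set P := cnt n d (fun G => Good d G ∧ (TS G u v w).card = j) with hP
  set Q := cnt n d (fun G => (TS G u v w).card = j + 1) with hQ
  have a1 : d ≤ 32 * (d / 16 - j - 2) := by omega
  have a2 : d ≤ 2 * (d - j - 2) := by omega
  have a3 : d ≤ 32 * (d / 16 - 3) := by omega
  have a4 : d ^ 3 ≤ 2048 * ((d / 16 - j - 2) * (d - j - 2) * (d / 16 - 3)) := by
    calc d ^ 3 = d * d * d := by ring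
      _ ≤ (32 * (d / 16 - j - 2)) * (2 * (d - j - 2)) * (32 * (d / 16 - 3)) := by gcongr
      _ = 2048 * ((d / 16 - j - 2) * (d - j - 2) * (d / 16 - 3)) := by ring
  have a5 : d ^ 3 * (2 * P) ≤ d ^ 3 * Q := by
    calc d ^ 3 * (2 * P)
        ≤ (2048 * ((d / 16 - j - 2) * (d - j - 2) * (d / 16 - 3))) * (2 * P) := by gcongr
      _ = 4096 * (((d / 16 - j - 2) * (d - j - 2) * (d / 16 - 3)) * P) := by ring
      _ ≤ 4096 * (((j + 1) * n * d) * Q) := by gcongr
      _ = (4096 * ((j + 1) * n)) * (d * Q) := by ring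
      _ ≤ d ^ 2 * (d * Q) := by gcongr
      _ = d ^ 3 * Q := by ring
  exact Nat.le_of_mul_le_mul_left a5 (by positivity)

end Pool.Agent.K1H67.SH
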